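import Pool.Agent.Helper29.CY.Goals

/-!
# Project CY (MP_eaa1a7_co), packet HEX
-/

set_option autoImplicit false

namespace Pool.Agent.Helper45.CY.HEX

lemma xy_le {X Y C : ℝ} (hX : 0 ≤ X) (hY : 0 ≤ Y) (hX1 : X ≤ 1) (hY1 : Y ≤ 1) (hC : 0 ≤ C) :
    X * Y * C ≤ 1 / 2 * (C * (X + Y)) := by
  have h1 : X * Y ≤ X := mul_le_of_le_one_right hX hY1
  have h2 : X * Y ≤ Y := mul_le_of_le_one_left hY hX1
  have h3 : X * Y ≤ (X + Y) / 2 := by linarith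
  have := mul_le_mul_of_nonneg_right h3 hC
  linarith

theorem t : Pool.Agent.Helper29.CY.S_HEX := by
  intro a1 b1 a2 b2 a3 b3 h1 h2 h3 h12 h12' h13 h13' h23 h23'
  obtain ⟨X, hX⟩ : ∃ X, X = 1 - (a1 ^ 2 + b1 ^ 2) := ⟨_, rfl⟩
  obtain ⟨Y, hY⟩ : ∃ Y, Y = 1 - (a2 ^ 2 + b2 ^ 2) := ⟨_, rfl⟩
  obtain ⟨Z, hZ⟩ : ∃ Z, Z = 1 - (a3 ^ 2 + b3 ^ 2) := ⟨_, rfl⟩
  obtain ⟨c, hc⟩ : ∃ c, c = a1 * a2 + b1 * b2 := ⟨_, rfl⟩
  obtain ⟨b, hb⟩ : ∃ b, b = a1 * a3 + b1 * b3 := ⟨_, rfl⟩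
  obtain ⟨a, ha⟩ : ∃ a, a = a2 * a3 + b2 * b3 := ⟨_, rfl⟩
  have gram : (1 - X) * (1 - Y) * (1 - Z) + 2 * (a * b * c) =
      (1 - X) * a ^ 2 + (1 - Y) * b ^ 2 + (1 - Z) * c ^ 2 := by
    rw [hX, hY, hZ, ha, hb, hc]
    ring
  have hX0 : 0 < X := by rw [hX]; linarith
  have hY0 : 0 < Y := by rw [hY]; linarith
  have hZ0 : 0 ≤ Z := by rw [hZ]; linarith
  have hX1 : X ≤ 1 := by rw [hX]; nlinarith [sq_nonneg a1, sq_nonneg b1]
  have hY1 : Y ≤ 1 := by rw [hY]; nlinarith [sq_nonneg a2, sq_nonneg b2]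
  have hZ1 : Z ≤ 1 := by rw [hZ]; nlinarith [sq_nonneg a3, sq_nonneg b3]
  obtain ⟨A, hA⟩ : ∃ A, A = (1 - Y - Z) / 2 := ⟨_, rfl⟩
  obtain ⟨B, hB⟩ : ∃ B, B = (1 - X - Z) / 2 := ⟨_, rfl⟩
  obtain ⟨C, hC⟩ : ∃ C, C = (1 - X - Y) / 2 := ⟨_, rfl⟩
  have hcC : |c| ≤ C := by
    rw [abs_le]
    constructor <;> (rw [hC, hX, hY, hc]; nlinarith)
  have hbB : |b| ≤ B := by
    rw [abs_le]
    constructor <;> (rw [hB, hX, hZ, hb]; nlinarith)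
  have haA : |a| ≤ A := by
    rw [abs_le]
    constructor <;> (rw [hA, hY, hZ, ha]; nlinarith)
  have hA0 : 0 ≤ A := (abs_nonneg a).trans haA
  have hB0 : 0 ≤ B := (abs_nonneg b).trans hbB
  have hC0 : 0 ≤ C := (abs_nonneg c).trans hcC
  have a2' : a ^ 2 ≤ A ^ 2 := sq_le_sq' (abs_le.1 haA).1 (abs_le.1 haA).2
  have b2' : b ^ 2 ≤ B ^ 2 := sq_le_sq' (abs_le.1 hbB).1 (abs_le.1 hbB).2
  have c2' : c ^ 2 ≤ C ^ 2 := sq_le_sq' (abs_le.1 hcC).1 (abs_le.1 hcC).2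
  have habc : -(A * B * C) ≤ a * b * c := by
    have h4 : |a * b * c| ≤ A * B * C := by
      rw [abs_mul, abs_mul]
      exact mul_le_mul (mul_le_mul haA hbB (abs_nonneg _) hA0) hcC (abs_nonneg _)
        (mul_nonneg hA0 hB0)
    exact (abs_le.1 h4).1
  have m1 := mul_le_mul_of_nonneg_left a2' (show 0 ≤ 1 - X by linarith)
  have m2 := mul_le_mul_of_nonneg_left b2' (show 0 ≤ 1 - Y by linarith)
  have m3 := mul_le_mul_of_nonneg_left c2' (show 0 ≤ 1 - Z by linarith)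
  have key : (1 - X) * (1 - Y) * (1 - Z) - (1 - X) * A ^ 2 - (1 - Y) * B ^ 2 - (1 - Z) * C ^ 2 -
      2 * (A * B * C) = 3 / 4 * (X * (B + C) + Y * (A + C) + Z * (A + B)) - X * Y * C - Y * Z * A -
        X * Z * B + X * Y * Z := by
    rw [hA, hB, hC]
    ring
  have k1 := xy_le hX0.le hY0.le hX1 hY1 hC0
  have k2 := xy_le hY0.le hZ0 hY1 hZ1 hA0
  have k3 := xy_le hX0.le hZ0 hX1 hZ1 hB0
  have n1 : 0 ≤ C * (X + Y) := by positivity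
  have n2 : 0 ≤ A * (Y + Z) := by positivity
  have n3 : 0 ≤ B * (X + Z) := by positivity
  have n4 : 0 ≤ X * Y * Z := by positivity
  have tot : 1 / 4 * (C * (X + Y) + A * (Y + Z) + B * (X + Z)) + X * Y * Z ≤ 0 := by
    linarith
  have e1 : C * (X + Y) = 0 := by linarith
  have e2 : A * (Y + Z) = 0 := by linarith
  have e3 : B * (X + Z) = 0 := by linarith
  have e4 : X * Y * Z = 0 := by linarith
  have z1 : C = 0 := by
    rcases mul_eq_zero.1 e1 with h | h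
    · exact h
    · linarith
  have z2 : A = 0 := by
    rcases mul_eq_zero.1 e2 with h | h
    · exact h
    · linarith
  have z3 : B = 0 := by
    rcases mul_eq_zero.1 e3 with h | h
    · exact h
    · linarith
  have x1 : X = 1 / 2 := by linarith
  have x2 : Y = 1 / 2 := by linarith
  have x3 : Z = 1 / 2 := by linarith
  rw [x1, x2, x3] at e4
  norm_num at e4

end Pool.Agent.Helper45.CY.HEX
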